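import Mathlib

set_option autoImplicit false
open Set Filter Topology Metric Finset
open scoped InnerProductSpace ComplexConjugate

namespace Pool.Agent.H.MP_f50dde_an

variable {H : Type*} [NormedAddCommGroup H] [InnerProductSpace ℂ H] [CompleteSpace H] {T : H →L[ℂ] H}

lemma subadd {b : ℕ → ℝ} {c : ℝ} {N : ℕ} (hN : 0 < N) (h0 : 0 ≤ b N) (h1 : ∀ M, b M ≤ M * c)
    (h2 : ∀ M, b (N + M) ≤ b N + b M) (hc : 0 ≤ c) (M : ℕ) : b M ≤ M * (b N / N) + N * c := by
  induction M using Nat.strong_induction_on with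
  | _ M ih =>
    rcases lt_or_ge M N with h | h
    · have : (M : ℝ) * c ≤ N * c := by gcongr
      have : 0 ≤ M * (b N / N) := by positivity
      linarith [h1 M]
    · obtain ⟨M, rfl⟩ := Nat.exists_eq_add_of_le h
      have := ih M (by omega)
      have e : (N : ℝ) * (b N / N) = b N := by field_simp
      push_cast; linarith [h2 M]

lemma wiener (hT : T ∈ unitary (H →L[ℂ] H)) (hp : ∀ (c : ℂ) x, T x = c • x → x = 0) (x y : H) :
    Tendsto (fun M : ℕ => (M : ℝ)⁻¹ * ∑ n ∈ range M, ‖⟪y, (T ^ n) x⟫_ℂ‖ ^ 2) atTop (𝓝 0) := by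
  have iso : ∀ w : ℂ, ‖w‖ = 1 → ∀ n v, ‖((conj w • T) ^ n) v‖ = ‖v‖ := fun w hw n v => by
    rw [smul_pow, smul_apply, norm_smul, ContinuousLinearMap.norm_map_of_mem_unitary (pow_mem hT n)]
    simp [hw]
  have key : ∀ ε > 0, ∀ᶠ M : ℕ in atTop, ∀ w ∈ sphere (0 : ℂ) 1,
      ‖∑ n ∈ range M, ((conj w • T) ^ n) x‖ ≤ M * ε := fun ε hε => by
    refine (isCompact_sphere (0 : ℂ) 1).induction_on (p := fun s => ∀ᶠ M : ℕ in atTop, ∀ w ∈ s,
      ‖∑ n ∈ range M, ((conj w • T) ^ n) x‖ ≤ M * ε) (by simp)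
      (fun s t h ht => ht.mono fun M hM w hw => hM w (h hw))
      (fun s t hs ht => (hs.and ht).mono fun M hM w hw => hw.elim (hM.1 w) (hM.2 w)) fun w hw => ?_
    rw [mem_sphere_zero_iff_norm] at hw
    have t := (conj w • T).tendsto_birkhoffAverage_orthogonalProjection
      (ContinuousLinearMap.opNorm_le_bound _ zero_le_one fun v => by simpa using (iso w hw 1 v).le) x
    generalize ((conj w • T).eqLocus (1 : H →L[ℂ] H)).orthogonalProjectionOnto x = z at t
    have z0 : (z : H) = 0 := hp w z (by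
      have : conj w • T z = z := z.2
      rw [← congrArg (w • ·) this, smul_smul, Complex.mul_conj, Complex.normSq_eq_norm_sq, hw]
      simp)
    rw [z0] at t
    obtain ⟨N, hN, N0⟩ := ((t.norm.eventually (gt_mem_nhds (show _ < ε / 2 by simpa))).and
      (eventually_gt_atTop 0)).exists
    have c : Continuous fun w : ℂ => ‖∑ n ∈ range N, ((conj w • T) ^ n) x‖ / N := by fun_prop
    refine ⟨_, inter_mem_nhdsWithin _ (c.continuousAt.eventually (gt_mem_nhds (show _ < ε / 2 from ?_))),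
      ((tendsto_natCast_atTop_atTop.atTop_mul_const (half_pos hε)).eventually_ge_atTop
        (N * ‖x‖)).mono fun M hM v hv => ?_⟩
    · simpa [birkhoffAverage, birkhoffSum, norm_smul, div_eq_inv_mul] using hN
    have v1 := mem_sphere_zero_iff_norm.1 hv.1
    have := subadd (b := fun M => ‖∑ n ∈ range M, ((conj v • T) ^ n) x‖) N0 (norm_nonneg _)
      (fun M => (norm_sum_le _ _).trans (by simp only [iso v v1]; simp)) (fun M => by
        rw [sum_range_add]
        refine (norm_add_le _ _).trans_eq ?_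
        simp only [pow_add, mul_apply_eq_comp, ← map_sum, iso v v1]) (norm_nonneg x) M
    have h2 : _ < ε / 2 := hv.2
    nlinarith [mul_le_mul_of_nonneg_left h2.le (Nat.cast_nonneg (α := ℝ) M)]
  have nT : IsStarNormal T := isStarNormal_of_mem_unitary hT
  refine Metric.tendsto_nhds.2 fun ε hε => ?_
  obtain ⟨δ, hδ, h⟩ := exists_pos_mul_lt hε (‖y‖ * ‖y‖ * ‖x‖)
  filter_upwards [key δ hδ, eventually_gt_atTop 0] with M hM M0
  have := norm_cfc_le (f := fun z : ℂ => ∑ n ∈ range M, conj ⟪y, (T ^ n) x⟫_ℂ * z ^ n) (a := T)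
    (c := ‖y‖ * (M * δ)) (by positivity) fun w hw => by
      refine le_trans (le_of_eq ?_) ((norm_inner_le_norm (𝕜 := ℂ) y _).trans
        (mul_le_mul_of_nonneg_left (hM w (spectrum.subset_circle_of_unitary hT hw)) (norm_nonneg y)))
      rw [← Complex.norm_conj]
      simp [inner_sum, smul_pow, mul_comm, inner_smul_right]
  have e : ⟪y, cfc (fun z : ℂ => ∑ n ∈ range M, conj ⟪y, (T ^ n) x⟫_ℂ * z ^ n) T x⟫_ℂ =
      (∑ n ∈ range M, ‖⟪y, (T ^ n) x⟫_ℂ‖ ^ 2 : ℝ) := by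
    rw [← Finset.sum_fn, cfc_sum _ _ _ (fun _ _ => by fun_prop)]
    rw [_root_.sum_apply, inner_sum, Complex.ofReal_sum]
    refine sum_congr rfl fun n _ => ?_
    rw [cfc_const_mul _ _ _, cfc_pow_id _ _, smul_apply, inner_smul_right, Complex.conj_mul']
    simp
  have h2 := (norm_inner_le_norm (𝕜 := ℂ) y _).trans (mul_le_mul_of_nonneg_left
    ((ContinuousLinearMap.le_of_opNorm_le _ this x)) (norm_nonneg y))
  rw [e, Complex.norm_real, Real.norm_of_nonneg (by positivity)] at h2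
  rw [dist_zero_right, Real.norm_of_nonneg (by positivity), inv_mul_lt_iff₀ (by positivity)]
  nlinarith [mul_lt_mul_of_pos_left h (Nat.cast_pos (α := ℝ).2 M0)]

lemma filt (hT : T ∈ unitary (H →L[ℂ] H)) (hp : ∀ (c : ℂ) x, T x = c • x → x = 0) :
    ∃ F : Filter ℕ, F.NeBot ∧ (∀ a : ℕ → ℂ, Tendsto a atTop (𝓝 0) → Tendsto a F (𝓝 0)) ∧
      ∀ s m : ℕ, ∀ v u : H, Tendsto (fun n => ⟪((T ^ n) ^ s) v, ((T ^ n) ^ m) u⟫_ℂ) F
        (𝓝 (if m = s then ⟪v, u⟫_ℂ else 0)) := by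
  let Z := {a : ℕ → ℝ // (∀ n, 0 ≤ a n) ∧
    Tendsto (fun M : ℕ => (M : ℝ)⁻¹ * ∑ n ∈ range M, a n) atTop (𝓝 0)}
  have k : ∀ a : Z, Tendsto a.1 (⨅ a : Z, comap a.1 (𝓝 0)) (𝓝 0) := fun a =>
    tendsto_iff_comap.2 (iInf_le _ a)
  refine ⟨⨅ a : Z, comap a.1 (𝓝 0), iInf_neBot_of_directed (fun a b => ⟨⟨a.1 + b.1,
    fun n => add_nonneg (a.2.1 n) (b.2.1 n), by
      simpa [sum_add_distrib, mul_add] using a.2.2.add b.2.2⟩, tendsto_iff_comap.1 (squeeze_zero
      a.2.1 (fun n => le_add_of_nonneg_right (b.2.1 n)) tendsto_comap), tendsto_iff_comap.1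
      (squeeze_zero b.2.1 (fun n => le_add_of_nonneg_left (a.2.1 n)) tendsto_comap)⟩)
    fun a => comap_neBot fun t ht => ?_, fun a ha => tendsto_zero_iff_norm_tendsto_zero.2
      (k ⟨_, fun n => norm_nonneg _, (tendsto_zero_iff_norm_tendsto_zero.1 ha).cesaro⟩), ?_⟩
  · obtain ⟨ε, hε, h⟩ := Metric.mem_nhds_iff.1 ht
    by_contra hh
    have : ∀ n, ε ≤ a.1 n := fun n => le_of_not_gt fun e => hh ⟨n, h (by
      simpa [abs_of_nonneg (a.2.1 n)] using e)⟩
    refine hε.not_ge (ge_of_tendsto a.2.2 ((eventually_gt_atTop 0).mono fun M M0 => ?_))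
    rw [le_inv_mul_iff₀ (by positivity)]
    simpa using sum_le_sum fun n (_ : n ∈ range M) => this n
  have w : ∀ m > 0, ∀ v u : H, Tendsto (fun n => ⟪v, ((T ^ n) ^ m) u⟫_ℂ)
      (⨅ a : Z, comap a.1 (𝓝 0)) (𝓝 0) := fun m hm v u => by
    have := (k ⟨fun n => ‖⟪v, ((T ^ n) ^ m) u⟫_ℂ‖ ^ 2, fun n => by positivity, ?_⟩).sqrt
    · exact tendsto_zero_iff_norm_tendsto_zero.2 (by simpa using this)
    have t := ((wiener hT hp u v).comp (tendsto_id.atTop_mul_const' hm)).const_mul (m : ℝ)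
    rw [mul_zero] at t
    refine squeeze_zero (fun M => by positivity) (fun M => ?_) t
    simp only [Function.comp, id, ← mul_assoc, ← pow_mul]
    rw [show (m : ℝ) * ((M * m : ℕ) : ℝ)⁻¹ = (M : ℝ)⁻¹ by push_cast; field_simp,
      ← sum_image (g := fun n => n * m) (f := fun n => ‖⟪v, (T ^ n) u⟫_ℂ‖ ^ 2)
        fun _ _ _ _ e => Nat.eq_of_mul_eq_mul_right hm e]
    gcongr
    intro n hn
    obtain ⟨j, hj, rfl⟩ := mem_image.1 hn
    exact mem_range.2 (Nat.mul_lt_mul_of_pos_right (mem_range.1 hj) hm)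
  have iso := fun n s => ContinuousLinearMap.inner_map_map_of_mem_unitary (pow_mem (pow_mem hT n) s)
  intro s m v u
  rcases lt_trichotomy s m with h | rfl | h
  · obtain ⟨m, rfl⟩ := Nat.exists_eq_add_of_lt h
    rw [if_neg h.ne']
    simpa only [add_assoc, pow_add _ s, mul_apply_eq_comp, iso] using
      w (m + 1) m.succ_pos v u
  · simp only [iso, if_true, tendsto_const_nhds]
  · obtain ⟨s, rfl⟩ := Nat.exists_eq_add_of_lt h
    rw [if_neg h.ne]
    simpa only [add_assoc, pow_add _ m, mul_apply_eq_comp, iso, Function.comp_def,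
      inner_conj_symm, map_zero] using (Complex.continuous_conj.tendsto 0).comp (w (s + 1) s.succ_pos u v)

end Pool.Agent.H.MP_f50dde_an
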