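import Pool.Agent.H.MP_f50dde_an.A

set_option autoImplicit false
open Set Filter Topology Metric Finset NormedSpace
open scoped InnerProductSpace ComplexConjugate Nat

namespace Pool.Agent.H.MP_f50dde_an

variable {H : Type*} [NormedAddCommGroup H] [InnerProductSpace ℂ H] [CompleteSpace H] {T : H →L[ℂ] H}

lemma eadd {A B : H →L[ℂ] H} (h : Commute A B) : exp (A + B) = exp A * exp B := by
  let _ : NormedAlgebra ℚ (H →L[ℂ] H) := .restrictScalars ℚ ℂ _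
  exact exp_add_of_commute h

lemma econt : Continuous (exp : (H →L[ℂ] H) → H →L[ℂ] H) := by
  let _ : NormedAlgebra ℚ (H →L[ℂ] H) := .restrictScalars ℚ ℂ _
  exact exp_continuous

lemma nexp [Nontrivial H] (A : H →L[ℂ] H) : ‖exp A‖ ≤ Real.exp ‖A‖ :=
  (exp_series_hasSum_exp' (𝕂 := ℂ) A).norm_le_of_bounded
    (Real.exp_eq_exp_ℝ ▸ exp_series_hasSum_exp' (𝕂 := ℝ) ‖A‖) fun n => by
      rw [norm_smul, smul_eq_mul, norm_inv, Complex.norm_natCast]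
      gcongr; exact norm_pow_le _ _

lemma approx [Nontrivial H] (hT : T ∈ unitary (H →L[ℂ] H)) {F : Filter ℕ}
    (hF : ∀ s m : ℕ, ∀ v u : H, Tendsto (fun n => ⟪((T ^ n) ^ s) v, ((T ^ n) ^ m) u⟫_ℂ) F
      (𝓝 (if m = s then ⟪v, u⟫_ℂ else 0))) {c : ℕ → ℂ} (hc : Tendsto c F (𝓝 0)) (s : ℕ) (v : H)
    {K : Set H} (hK : IsCompact K) {ε : ℝ} (hε : 0 < ε) : ∀ᶠ n in F, ∀ u ∈ K, ∀ ν : ℂ, ‖ν‖ ≤ 1 →
      ‖⟪((T ^ n) ^ s) v, exp (ν • (T ^ n - c n • 1)) u⟫_ℂ - ((s ! : ℂ)⁻¹ * ν ^ s) * ⟪v, u⟫_ℂ‖ ≤ ε := by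
  have iso := fun n s => ContinuousLinearMap.norm_map_of_mem_unitary (pow_mem (pow_mem hT n) s)
  have c1 := hc.norm.eventually (ge_mem_nhds (show ‖(0 : ℂ)‖ < 1 by simp))
  have n1 : ∀ ν : ℂ, ‖ν‖ ≤ 1 → ∀ m : ℕ, ‖(m ! : ℂ)⁻¹ * ν ^ m‖ ≤ (m ! : ℝ)⁻¹ := fun ν hν m => by
    rw [norm_mul, norm_inv, Complex.norm_natCast, norm_pow]
    exact mul_le_of_le_one_right (by positivity) (pow_le_one₀ (norm_nonneg _) hν)
  have n2 : ∀ ν : ℂ, ‖ν‖ ≤ 1 → ‖(s ! : ℂ)⁻¹ * ν ^ s‖ ≤ 1 := fun ν hν => (n1 ν hν s).trans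
    (inv_le_one_of_one_le₀ (Nat.one_le_cast.2 s.factorial_pos))
  refine hK.induction_on (p := fun K => ∀ᶠ n in F, ∀ u ∈ K, ∀ ν : ℂ, ‖ν‖ ≤ 1 →
    ‖⟪((T ^ n) ^ s) v, exp (ν • (T ^ n - c n • 1)) u⟫_ℂ - ((s ! : ℂ)⁻¹ * ν ^ s) * ⟪v, u⟫_ℂ‖ ≤ ε) (by simp)
    (fun s t h ht => ht.mono fun M hM w hw => hM w (h hw))
    (fun s t hs ht => (hs.and ht).mono fun M hM w hw => hw.elim (hM.1 w) (hM.2 w)) fun u _ => ?_
  have bd : ∀ n m, ‖⟪((T ^ n) ^ s) v, ((T ^ n) ^ m) u⟫_ℂ - if m = s then ⟪v, u⟫_ℂ else 0‖ ≤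
      2 * (‖v‖ * ‖u‖) := fun n m => by
    have := norm_inner_le_norm (𝕜 := ℂ) (((T ^ n) ^ s) v) (((T ^ n) ^ m) u)
    rw [iso, iso] at this
    refine (norm_sub_le _ _).trans ?_
    split_ifs
    · linarith [norm_inner_le_norm (𝕜 := ℂ) v u]
    · rw [norm_zero]; nlinarith [norm_nonneg v, norm_nonneg u]
  have sm : Summable fun m : ℕ => (m ! : ℝ)⁻¹ * (2 * (‖v‖ * ‖u‖)) :=
    (by simpa using Real.summable_pow_div_factorial 1 : Summable fun m : ℕ => (m ! : ℝ)⁻¹).mul_right _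
  have t := tendsto_tsum_of_dominated_convergence (𝓕 := F) (f := fun n m => (m ! : ℝ)⁻¹ *
    ‖⟪((T ^ n) ^ s) v, ((T ^ n) ^ m) u⟫_ℂ - if m = s then ⟪v, u⟫_ℂ else 0‖) sm
    (fun m => (tendsto_iff_norm_sub_tendsto_zero.1 (hF s m v u)).const_mul _)
    (.of_forall fun n m => by rw [Real.norm_of_nonneg (by positivity)]; gcongr; exact bd n m)
  have t2 := (((hc.norm.const_mul 2).const_add 1).mul t).add
    ((hc.norm.const_mul 2).mul_const ‖⟪v, u⟫_ℂ‖)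
  obtain ⟨δ, hδ, h⟩ := exists_pos_mul_lt (half_pos hε) (‖v‖ * (Real.exp 2 + 1))
  refine ⟨ball u δ, mem_nhdsWithin_of_mem_nhds (ball_mem_nhds u hδ), ?_⟩
  filter_upwards [c1, t2.eventually (gt_mem_nhds (show _ < ε / 2 by simpa))] with n h1 h2 u' hu ν hν
  have a1 := (((exp_series_hasSum_exp' (𝕂 := ℂ) (ν • T ^ n)).mapL ((innerSL ℂ (((T ^ n) ^ s) v)).comp
    (ContinuousLinearMap.apply ℂ H u))).sub (hasSum_ite_eq s (((s ! : ℂ)⁻¹ * ν ^ s) * ⟪v, u⟫_ℂ))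
    ).norm_le_of_bounded (sm.of_nonneg_of_le (fun m => by positivity) fun m =>
      mul_le_mul_of_nonneg_left (bd n m) (by positivity)).hasSum fun m => by
        refine le_trans (le_of_eq ?_) (mul_le_mul_of_nonneg_right (n1 ν hν m) (norm_nonneg _))
        rw [← norm_mul, smul_pow]
        congr 1
        split_ifs with e <;> simp [mul_sub, mul_assoc, e]
  have a2 : exp (ν • (T ^ n - c n • 1)) = Complex.exp (-(ν * c n)) • exp (ν • T ^ n) := by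
    rw [Complex.exp_eq_exp_ℂ, Algebra.smul_def (exp _), algebraMap_exp_comm,
      ← eadd (Algebra.commute_algebraMap_left _ _), Algebra.algebraMap_eq_smul_one]
    congr 1; module
  have a3 : ‖Complex.exp (-(ν * c n)) - 1‖ ≤ 2 * ‖c n‖ := by
    have : ‖-(ν * c n)‖ ≤ ‖c n‖ := by rw [norm_neg, norm_mul]; nlinarith [norm_nonneg (c n)]
    linarith [Complex.norm_exp_sub_one_le (this.trans h1)]
  have a4 : ‖exp (ν • (T ^ n - c n • 1))‖ ≤ Real.exp 2 := (nexp _).trans (Real.exp_le_exp.2 (by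
    have := (norm_sub_le (T ^ n) (c n • 1)).trans_eq (by
      rw [CStarRing.norm_of_mem_unitary (pow_mem hT n), norm_smul, norm_one])
    rw [norm_smul]; nlinarith [norm_nonneg (T ^ n - c n • 1)]))
  have a5 := (norm_inner_le_norm (𝕜 := ℂ) (((T ^ n) ^ s) v) _).trans (mul_le_mul (iso n s v).le
    (ContinuousLinearMap.le_of_opNorm_le_of_le _ a4 (mem_ball_iff_norm.1 hu).le) (norm_nonneg _)
    (norm_nonneg _))
  have a6 := mul_le_mul (n2 ν hν) ((norm_inner_le_norm (𝕜 := ℂ) v _).trans (mul_le_mul_of_nonneg_left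
    (mem_ball_iff_norm.1 hu).le (norm_nonneg _))) (norm_nonneg _) zero_le_one
  have a7 := mul_le_mul a3 (mul_le_mul_of_nonneg_right (n2 ν hν) (norm_nonneg ⟪v, u⟫_ℂ))
    (by positivity) (by positivity)
  have a8 := mul_le_mul ((norm_le_insert' _ 1).trans (add_le_add norm_one.le a3)) a1 (norm_nonneg _)
    (by positivity)
  simp only [← norm_mul] at a6 a7 a8
  rw [a2] at a5 ⊢
  simp only [smul_apply, inner_smul_right, map_sub, inner_sub_right, ContinuousLinearMap.comp_apply,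
    ContinuousLinearMap.apply_apply, innerSL_apply_apply] at a5 a6 a8 ⊢
  generalize Complex.exp _ = z at *
  generalize (s ! : ℂ)⁻¹ * ν ^ s = b at *
  generalize ⟪((T ^ n) ^ s) v, exp (ν • T ^ n) u⟫_ℂ = X at *
  generalize ⟪((T ^ n) ^ s) v, exp (ν • T ^ n) u'⟫_ℂ = X' at *
  rw [show z * X' - b * ⟪v, u'⟫_ℂ = (z * X' - z * X - b * (⟪v, u'⟫_ℂ - ⟪v, u⟫_ℂ)) + (z * (X - b * ⟪v, u⟫_ℂ) +
    (z - 1) * (b * ⟪v, u⟫_ℂ)) by ring]
  refine (norm_add_le_of_le (norm_sub_le_of_le a5 a6) (norm_add_le_of_le a8 a7)).trans ?_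
  linarith

lemma exseq {α : Type*} (Q : ∀ K : ℕ, (Fin K → α) → α → Prop) (h : ∀ K f, ∃ a, Q K f a) :
    ∃ n : ℕ → α, ∀ K, Q K (fun i => n i) (n K) := by
  choose F hF using h
  let n : ℕ → α := fun K => Nat.strongRec (motive := fun _ => α) (fun K ih => F K fun i => ih i i.2) K
  refine ⟨n, fun K => ?_⟩
  have : n K = F K fun i => n i := by simp only [n]; rw [Nat.strongRec_eq]
  rw [this]; exact hF _ _

lemma build (hT : T ∈ unitary (H →L[ℂ] H)) (hp : ∀ (c : ℂ) x, T x = c • x → x = 0) {x : H}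
    (hx : ‖x‖ = 1) {c : ℕ → ℕ → ℂ} (hc : ∀ k, Tendsto (c k) atTop (𝓝 0)) : ∃ n : ℕ → ℕ,
    (∀ v, Tendsto (fun j => ⟪(T ^ n j) x, v⟫_ℂ) atTop (𝓝 0)) ∧ ∀ μ : ℕ → ℂ, (∀ k, ‖μ k‖ ≤ 1) → ∀ K,
      ‖⟪x, exp (∑ k ∈ range K, μ k • (T ^ n k - c k (n k) • 1)) x⟫_ℂ - 1‖ ≤ 1 / 4 ∧ ∀ j < K, 3 / 4 * ‖μ j‖ ≤
      ‖⟪(T ^ n j) x, exp (∑ k ∈ range K, μ k • (T ^ n k - c k (n k) • 1)) x⟫_ℂ‖ + 1 / 4 := by
  have : Nontrivial H := nontrivial_of_ne x 0 (norm_pos_iff.1 (by rw [hx]; norm_num))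
  obtain ⟨F, _, h1, h2⟩ := filt hT hp
  obtain ⟨n, hn⟩ := exseq (fun K f a => (∀ i, ‖⟪(T ^ f i) x, (T ^ a) x⟫_ℂ‖ ≤ 1 / 8 * (1 / 2) ^ K) ∧
    ∀ u ∈ (fun μ : Fin K → ℂ => exp (∑ i, μ i • (T ^ f i - c i (f i) • 1)) x) '' closedBall 0 1,
    ∀ ν : ℂ, ‖ν‖ ≤ 1 → ‖⟪x, exp (ν • (T ^ a - c K a • 1)) u⟫_ℂ - ⟪x, u⟫_ℂ‖ ≤ 1 / 8 * (1 / 2) ^ K ∧
    ‖⟪(T ^ a) x, exp (ν • (T ^ a - c K a • 1)) u⟫_ℂ - ν * ⟪x, u⟫_ℂ‖ ≤ 1 / 8 * (1 / 2) ^ K ∧
    ∀ i, ‖⟪(T ^ f i) x, exp (ν • (T ^ a - c K a • 1)) u⟫_ℂ - ⟪(T ^ f i) x, u⟫_ℂ‖ ≤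
      1 / 8 * (1 / 2) ^ K) fun K f => by
    have cp := (isCompact_closedBall (0 : Fin K → ℂ) 1).image (f := fun μ : Fin K → ℂ =>
      exp (∑ i, μ i • (T ^ f i - c i (f i) • 1)) x) ((econt.comp (by fun_prop)).clm_apply continuous_const)
    have p : (0 : ℝ) < 1 / 8 * (1 / 2) ^ K := by positivity
    have a := fun s v => approx hT h2 (h1 _ (hc K)) s v cp p
    obtain ⟨a, a1, a2, a3, a4⟩ := ((eventually_all.2 fun i => (h2 0 1 ((T ^ f i) x) x).norm.eventually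
      (ge_mem_nhds (show _ < (1 / 8 * (1 / 2) ^ K : ℝ) by simp))).and ((a 0 x).and ((a 1 x).and
        (eventually_all.2 fun i => a 0 ((T ^ f i) x))))).exists
    simp only [pow_zero, pow_one, one_apply_eq_self, Nat.factorial_zero, Nat.factorial_one,
      Nat.cast_one, inv_one, one_mul] at a1 a2 a3 a4
    exact ⟨a, a1, fun u hu ν hν => ⟨a2 u hu ν hν, a3 u hu ν hν, fun i => a4 i u hu ν hν⟩⟩
  refine ⟨n, fun v => ?_, fun μ hμ => ?_⟩
  · have cl : IsClosed {v | Tendsto (fun j => ⟪(T ^ n j) x, v⟫_ℂ) atTop (𝓝 0)} :=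
      Equicontinuous.isClosed_setOfPred_tendsto (F := fun j v => ⟪(T ^ n j) x, v⟫_ℂ) (f := fun _ => 0)
        (LipschitzWith.uniformEquicontinuous _ 1 fun j => LipschitzWith.of_dist_le_mul fun a b => by
          rw [dist_eq_norm, dist_eq_norm, ← inner_sub_right]
          simpa only [ContinuousLinearMap.norm_map_of_mem_unitary (pow_mem hT _), hx, NNReal.coe_one]
            using norm_inner_le_norm (𝕜 := ℂ) ((T ^ n j) x) (a - b)).equicontinuous continuous_const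
    let V := Submodule.span ℂ (Set.range fun j => (T ^ n j) x)
    obtain ⟨a, ha, b, hb, rfl⟩ := V.topologicalClosure.exists_add_mem_mem_orthogonal v
    have := closure_minimal (s := (V : Set H)) (fun a ha => ?_) cl ha
    · simpa only [inner_add_right, fun j => Submodule.inner_right_of_mem_orthogonal
        (V.le_topologicalClosure (Submodule.subset_span ⟨j, rfl⟩)) hb, add_zero, mem_ofPred_eq] using this
    induction ha using Submodule.span_induction with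
    | mem a h =>
      obtain ⟨i, rfl⟩ := h
      refine squeeze_zero_norm' ((eventually_gt_atTop i).mono fun j hj => ?_) (by simpa using
        (tendsto_pow_atTop_nhds_zero_of_lt_one (r := (1 / 2 : ℝ)) (by norm_num) (by norm_num)).const_mul (1 / 8))
      rw [norm_inner_symm]; simpa using (hn j).1 ⟨i, hj⟩
    | zero => simp
    | add a b _ _ h1 h2 => simpa only [mem_ofPred_eq, inner_add_right, add_zero] using h1.add h2
    | smul a b _ h1 => simpa only [mem_ofPred_eq, inner_smul_right, mul_zero] using h1.const_mul a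
  set g : ℕ → H := fun K => exp (∑ k ∈ range K, μ k • (T ^ n k - c k (n k) • 1)) x with hg
  have st : ∀ K, g (K + 1) = exp (μ K • (T ^ n K - c K (n K) • 1)) (g K) := fun K => by
    simp only [g]
    rw [sum_range_succ, add_comm, eadd, mul_apply_eq_comp]
    exact Commute.sum_right _ _ _ fun i _ => (((Commute.pow_pow_self T _ _).sub_left
      ((Commute.one_left _).smul_left _)).sub_right ((Commute.one_right _).smul_right _)
      |>.smul_left _).smul_right _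
  have q := fun K => (hn K).2 (g K) ⟨fun i => μ i, mem_closedBall_zero_iff.2
    ((pi_norm_le_iff_of_nonneg zero_le_one).2 fun i => hμ i), by simp only [g, sum_range]⟩ (μ K) (hμ K)
  simp only [← st] at q
  have i1 : ∀ K, ‖⟪x, g K⟫_ℂ - 1‖ ≤ 1 / 4 - 1 / 4 * (1 / 2) ^ K := fun K => by
    induction K with
    | zero => simp [g, inner_self_eq_norm_sq_to_K, hx]
    | succ K ih => rw [pow_succ]; linarith [norm_sub_le_norm_sub_add_norm_sub ⟪x, g (K + 1)⟫_ℂ ⟪x, g K⟫_ℂ 1, (q K).1]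
  have i2 : ∀ j K, j < K → ‖⟪(T ^ n j) x, g K⟫_ℂ - μ j * ⟪x, g j⟫_ℂ‖ ≤ 1 / 4 - 1 / 4 * (1 / 2) ^ K :=
    fun j K h => by
      induction K, h using Nat.le_induction with
      | base =>
        have : (1 / 2 : ℝ) ^ j ≤ 1 := pow_le_one₀ (by norm_num) (by norm_num)
        rw [Nat.succ_eq_add_one, pow_succ]; linarith [(q j).2.1]
      | succ K h ih =>
        rw [pow_succ]
        linarith [norm_sub_le_norm_sub_add_norm_sub ⟪(T ^ n j) x, g (K + 1)⟫_ℂ ⟪(T ^ n j) x, g K⟫_ℂ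
          (μ j * ⟪x, g j⟫_ℂ), (q K).2.2 ⟨j, h⟩]
  have p : ∀ K, (0 : ℝ) < (1 / 2) ^ K := fun K => by positivity
  refine fun K => ⟨by linarith [i1 K, p K], fun j hj => ?_⟩
  have a := norm_sub_norm_le 1 ⟪x, g j⟫_ℂ
  have b := norm_sub_norm_le (μ j * ⟪x, g j⟫_ℂ) ⟪(T ^ n j) x, g K⟫_ℂ
  rw [norm_sub_rev] at a b
  rw [norm_mul] at b
  rw [norm_one] at a
  nlinarith [i1 j, i2 j K hj, p j, p K, norm_nonneg (μ j)]

end Pool.Agent.H.MP_f50dde_an
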