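import Pool.Agent.H.MP_f50dde_an.B

set_option autoImplicit false
open Set Filter Topology Metric Finset NormedSpace
open scoped InnerProductSpace ComplexConjugate

namespace Pool.Agent.H.MP_f50dde_an

variable {H : Type*} [NormedAddCommGroup H] [InnerProductSpace ℂ H] [CompleteSpace H]
  {X : Type*} [NormedAddCommGroup X] [NormedSpace ℂ X]

lemma wlim (U : Ultrafilter ℕ) {z : ℕ → H} {R : ℝ} (h : ∀ n, ‖z n‖ ≤ R) :
    ∃ y, ∀ v, Tendsto (fun n => ⟪v, z n⟫_ℂ) U (𝓝 ⟪v, y⟫_ℂ) := by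
  obtain ⟨φ, -, hφ⟩ := (WeakDual.isCompact_closedBall (0 : StrongDual ℂ H) R).ultrafilter_le_nhds
    (U.map fun n => StrongDual.toWeakDual (InnerProductSpace.toDual ℂ H (z n))) (by
      simp only [Ultrafilter.coe_map, le_principal_iff, Filter.mem_map]
      exact univ_mem' fun n => by simpa using h n)
  refine ⟨(InnerProductSpace.toDual ℂ H).symm φ.toStrongDual, fun v => ?_⟩
  have := (Complex.continuous_conj.tendsto _).comp (((WeakDual.eval_continuous v).tendsto φ).comp hφ)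
  rw [← inner_conj_symm v, InnerProductSpace.toDual_symm_apply]
  exact this.congr fun n => inner_conj_symm _ _

lemma mini (J : H ≃L[ℂ] X) {A : ℕ → H →L[ℂ] H} (hA : ∀ i j, Commute (A i) (A j)) {e : ℕ → H} {x : H}
    (h1 : ∀ v, Tendsto (fun j => ⟪e j, v⟫_ℂ) atTop (𝓝 0)) (h2 : ∀ μ : ℕ → ℂ, (∀ k, ‖μ k‖ ≤ 1) → ∀ K,
      ‖⟪x, exp (∑ k ∈ range K, μ k • A k) x⟫_ℂ - 1‖ ≤ 1 / 4 ∧ ∀ j < K, 3 / 4 * ‖μ j‖ ≤
      ‖⟪e j, exp (∑ k ∈ range K, μ k • A k) x⟫_ℂ‖ + 1 / 4) : ∃ y ≠ 0, ∃ j₀, ∀ (s : Finset ℕ)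
      (a : ℕ → ℂ), (∀ j ∈ s, j₀ ≤ j) → ‖J y‖ ≤ ‖J y + J ((∑ j ∈ s, a j • A j) y)‖ := by
  let ι : H → H → ℂ := fun y v => ⟪v, y⟫_ℂ
  let G : ℕ → Set H := fun K₀ => {g | ∃ K ≥ K₀, ∃ μ : ℕ → ℂ, (∀ k, ‖μ k‖ ≤ 1) ∧
    g = exp (∑ k ∈ range K, μ k • A k) x}
  let W : Set H := {y | ∀ K₀, ι y ∈ closure (ι '' G K₀)}
  have xW : x ∈ W := fun K => subset_closure ⟨x, ⟨K, le_rfl, 0, by simp, by simp⟩, rfl⟩
  have bd : BddBelow ((fun y => ‖J y‖) '' W) := ⟨0, by rintro _ ⟨y, -, rfl⟩; positivity⟩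
  obtain ⟨u, u1, u2, u3⟩ := exists_seq_tendsto_sInf (Set.Nonempty.image _ ⟨x, xW⟩) bd
  choose z z1 z2 using u3
  obtain ⟨y, hy⟩ := wlim (.of atTop) (z := z) (R := ‖(J.symm : X →L[ℂ] H)‖ * u 0) fun n => by
    simpa using (J.symm : X →L[ℂ] H).le_of_opNorm_le_of_le le_rfl ((z2 n).trans_le (u1 n.zero_le))
  have yW : y ∈ W := fun K => isClosed_closure.mem_of_tendsto (tendsto_pi_nhds.2 hy)
    (.of_forall fun n => z1 n K)
  have mn : ∀ w ∈ W, ‖J y‖ ≤ ‖J w‖ := fun w hw => by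
    obtain ⟨f, f1, f2⟩ := exists_dual_vector'' ℂ (J y)
    have := (hy ((InnerProductSpace.toDual ℂ H).symm (f.comp (J : H →L[ℂ] X)))).norm
    simp only [InnerProductSpace.toDual_symm_apply, ContinuousLinearMap.comp_apply,
      ContinuousLinearEquiv.coe_coe, f2, RCLike.norm_ofReal, abs_norm] at this
    refine (le_of_tendsto_of_tendsto' this (u2.mono_left (Ultrafilter.of_le _)) fun n => ?_).trans
      (csInf_le bd ⟨w, hw, rfl⟩)
    simpa using f.le_of_opNorm_le_of_le f1 (z2 n).le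
  obtain ⟨j₀, hj⟩ := eventually_atTop.1 ((h1 y).norm.eventually (gt_mem_nhds
    (show _ < (1 / 8 : ℝ) by simp)))
  refine ⟨y, fun y0 => ?_, j₀, fun s a hs => ?_⟩
  · have := closure_minimal (t := {φ : H → ℂ | ‖φ x - 1‖ ≤ 1 / 4})
      (by rintro _ ⟨_, ⟨K, -, μ, hμ, rfl⟩, rfl⟩; exact (h2 μ hμ K).1)
      (isClosed_le (by fun_prop) continuous_const) (yW 0)
    norm_num [ι, y0] at this
  have per : ∀ a : ℕ → ℂ, (∀ j ∈ s, ‖a j‖ ≤ 1 / 2) → exp (∑ j ∈ s, a j • A j) y ∈ W := fun a ha K₀ => by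
    have op : IsOpen {φ : H → ℂ | ∀ j ∈ s, ‖φ (e j)‖ < 1 / 8} := by
      rw [show {φ : H → ℂ | ∀ j ∈ s, ‖φ (e j)‖ < 1 / 8} = ⋂ j ∈ s, {φ | ‖φ (e j)‖ < 1 / 8} by ext; simp]
      exact isOpen_biInter_finset fun j _ => isOpen_lt (by fun_prop) continuous_const
    have := map_mem_closure (f := fun (φ : H → ℂ) v => φ ((exp (∑ j ∈ s, a j • A j)).adjoint v))
      (t := ι '' G K₀) (by fun_prop) (op.inter_closure ⟨fun j h => hj j (hs j h),
        yW (max K₀ (s.sup id + 1))⟩) (by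
        rintro _ ⟨h3, _, ⟨K, hK, μ, hμ, rfl⟩, rfl⟩
        have lt : ∀ j ∈ s, j < K := fun j h => by have := le_sup (f := id) h; simp only [id] at this; omega
        refine ⟨_, ⟨K, by omega, fun k => (if k ∈ s then a k else 0) + μ k, fun k => ?_, rfl⟩, ?_⟩
        · beta_reduce
          split_ifs with h
          · linarith [norm_add_le (a k) (μ k), ha k h, (h2 μ hμ K).2 k (lt k h), h3 k h]
          · simpa using hμ k
        · ext v
          simp only [ι, ContinuousLinearMap.adjoint_inner_left, add_smul, sum_add_distrib, ite_smul,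
            zero_smul, sum_ite_mem, Finset.inter_eq_right.2 fun j h => mem_range.2 (lt j h)]
          rw [eadd, mul_apply_eq_comp]
          exact Commute.sum_left _ _ _ fun i _ => Commute.sum_right _ _ _ fun j _ =>
            ((hA i j).smul_left _).smul_right _)
    simpa only [ι, ContinuousLinearMap.adjoint_inner_left] using this
  set B := ∑ j ∈ s, a j • A j
  have d := hasDerivAt_iff_tendsto_slope_zero.1 (((J : H →L[ℂ] X).comp
    (ContinuousLinearMap.apply ℂ H y)).hasFDerivAt.comp_hasDerivAt 0 (hasDerivAt_exp_smul_const B (0 : ℂ)))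
  have tt : Tendsto (fun t : ℝ => (t : ℂ)) (𝓝[>] 0) (𝓝[≠] 0) :=
    tendsto_nhdsWithin_iff.2 ⟨(Complex.continuous_ofReal.tendsto' 0 0 rfl).mono_left
      nhdsWithin_le_nhds, mem_of_superset self_mem_nhdsWithin fun t ht => by simpa using ne_of_gt ht⟩
  have t := ((d.comp tt).const_add (J y)).norm
  simp only [Function.comp, zero_add, zero_smul, exp_zero, one_mul, ContinuousLinearMap.comp_apply,
    ContinuousLinearMap.apply_apply, ContinuousLinearEquiv.coe_coe, one_apply_eq_self] at t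
  have c : ∀ j, ContinuousAt (fun t : ℝ => ‖(t : ℂ) * a j‖) 0 := fun j => by fun_prop
  refine ge_of_tendsto t ?_
  filter_upwards [Ioo_mem_nhdsGT one_pos, nhdsWithin_le_nhds ((eventually_all_finset s).2 fun j _ =>
    (c j).eventually (ge_mem_nhds (show _ < (1 / 2 : ℝ) by simp)))] with t ht h
  have := mn _ (per _ h)
  simp only [mul_smul, ← smul_sum] at this
  generalize J (exp ((t : ℂ) • B) y) = q at *
  have t0 := Complex.ofReal_ne_zero.2 ht.1.ne'
  have h3 := norm_add_le (((1 - t : ℝ) : ℂ) • J y) ((t : ℂ) • (J y + (t : ℂ)⁻¹ • (q - J y)))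
  rw [show ((1 - t : ℝ) : ℂ) • J y + (t : ℂ) • (J y + (t : ℂ)⁻¹ • (q - J y)) = q by
    rw [smul_add, smul_inv_smul₀ t0]; push_cast; module, norm_smul, norm_smul, Complex.norm_real,
    Complex.norm_real, Real.norm_of_nonneg (sub_pos.2 ht.2).le, Real.norm_of_nonneg ht.1.le] at h3
  nlinarith [ht.1]

theorem main {T : H →L[ℂ] H} (hT : T ∈ unitary (H →L[ℂ] H)) (hσ : (spectrum ℂ T).Infinite)
    (hp : ∀ c : ℂ, ¬ Module.End.HasEigenvalue (T : H →ₗ[ℂ] H) c) {r : ℝ} (hr : 1 < r)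
    {S : X →L[ℂ] X} {J : H ≃L[ℂ] X} (hJ : ∀ x, J.symm (S (J x)) = (r : ℂ) • T x) :
    ∃ (x : X) (f : X →L[ℂ] ℂ), ‖x‖ = 1 ∧ ‖f‖ = 1 ∧ f x = 1 ∧ DenseRange fun n : ℕ => f ((S ^ n) x) := by
  have : Nontrivial H := by
    by_contra h
    rw [not_nontrivial_iff_subsingleton] at h
    exact hσ (by simp [spectrum.of_subsingleton])
  obtain ⟨x, hx⟩ := exists_norm_eq H zero_le_one
  let w := TopologicalSpace.denseSeq ℂ
  obtain ⟨n, h1, h2⟩ := build hT (fun c x h => by_contra fun x0 => hp c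
    (Module.End.hasEigenvalue_of_hasEigenvector ⟨Module.End.mem_eigenspace_iff.2 h, x0⟩)) hx
    (c := fun k a => w k * ((r : ℂ)⁻¹) ^ a) fun k => by
      simpa using (tendsto_pow_atTop_nhds_zero_of_norm_lt_one (x := (r : ℂ)⁻¹) (by
        rw [norm_inv, Complex.norm_real, Real.norm_of_nonneg (by positivity)]
        exact inv_lt_one_of_one_lt₀ hr)).const_mul (w k)
  obtain ⟨y, y0, j₀, h⟩ := mini J (fun i j => ((Commute.pow_pow_self T _ _).sub_left
    ((Commute.one_left _).smul_left _)).sub_right ((Commute.one_right _).smul_right _)) h1 h2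
  let V := Submodule.span ℂ ((fun j => J ((T ^ n j - (w j * ((r : ℂ)⁻¹) ^ n j) • 1) y)) '' Set.Ici j₀)
  have p0 : 0 < ‖J y‖ := by simpa using y0
  have q : ‖V.mkQ (J y)‖ = ‖J y‖ := by
    refine (Submodule.Quotient.norm_mk_le V _).antisymm (le_of_forall_pos_le_add fun ε hε => ?_)
    obtain ⟨m, m1, m2⟩ := Submodule.Quotient.norm_mk_lt (V.mkQ (J y)) hε
    obtain ⟨l, l1, l2⟩ := (Finsupp.mem_span_image_iff_linearCombination ℂ).1
      ((Submodule.Quotient.eq V).1 m1)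
    have := h l.support l fun j hj => l1 hj
    rw [_root_.sum_apply, map_sum] at this
    simp only [smul_apply, map_smul] at this
    rw [Finsupp.linearCombination_apply, Finsupp.sum] at l2
    rw [l2, add_sub_cancel] at this
    exact this.trans m2.le
  obtain ⟨g, g1, g2⟩ := exists_dual_vector ℂ (V.mkQ (J y)) (q ▸ p0.ne')
  let f : X →L[ℂ] ℂ := LinearMap.mkContinuous (g.toLinearMap.comp V.mkQ) 1 fun v => by
    simpa using g.le_of_opNorm_le_of_le g1.le (Submodule.Quotient.norm_mk_le V v)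
  have p1 := Complex.ofReal_ne_zero.2 p0.ne'
  have f1 : f ((‖J y‖ : ℂ)⁻¹ • J y) = 1 := by
    rw [map_smul, show f (J y) = _ from g2, q]; exact inv_mul_cancel₀ p1
  have x1 : ‖(‖J y‖ : ℂ)⁻¹ • J y‖ = 1 := by simp [norm_smul, p0.ne']
  have it : ∀ m : ℕ, (S ^ m) (J y) = (r : ℂ) ^ m • J ((T ^ m) y) := fun m => by
    induction m with
    | zero => simp
    | succ m ih =>
      rw [pow_succ', mul_apply_eq_comp, ih, map_smul, ← J.apply_symm_apply (S _), hJ, map_smul,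
        smul_smul, pow_succ, pow_succ', mul_apply_eq_comp]
  refine ⟨_, f, x1, (LinearMap.mkContinuous_norm_le _ zero_le_one _).antisymm (by
    simpa [f1, x1] using f.le_opNorm ((‖J y‖ : ℂ)⁻¹ • J y)), f1,
    ((TopologicalSpace.denseRange_denseSeq ℂ).sdiff_finite ((finite_lt_nat j₀).image w)).mono ?_⟩
  rintro _ ⟨⟨j, rfl⟩, hj⟩
  have z : f (J ((T ^ n j - (w j * ((r : ℂ)⁻¹) ^ n j) • 1) y)) = 0 := by
    change g (V.mkQ _) = 0
    rw [Submodule.mkQ_apply, (Submodule.Quotient.mk_eq_zero V).2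
      (Submodule.subset_span ⟨j, le_of_not_gt fun e : j < j₀ => hj ⟨j, e, rfl⟩, rfl⟩), map_zero]
  have r0 := Complex.ofReal_ne_zero.2 (one_pos.trans hr).ne'
  refine ⟨n j, ?_⟩
  simp only [sub_apply, smul_apply, one_apply_eq_self, map_sub, map_smul, smul_eq_mul, it,
    sub_eq_zero, inv_pow] at z f1 ⊢
  rw [z]
  field_simp at f1 ⊢
  rw [f1]

end Pool.Agent.H.MP_f50dde_an
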